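import Pool.Agent.J4H64.IF.J

set_option autoImplicit false

namespace Pool.Agent.J4H64.IF

open Finset Pool.Agent.J4H60.IF

theorem ne_compl (X : V) : X ≠ Xᶜ := by
  intro h
  have h1 := congrArg card h
  rw [compl_card] at h1
  have h2 := card_le7 X
  omega

theorem both {F : Finset V} (hF : ∀ X ∈ F, ∀ Y ∈ F, X ≠ Y → ¬ Disjoint X Y) (X : V)
    (h : X ∈ F) : Xᶜ ∉ F := fun h' => hF X h Xᶜ h' (ne_compl X) disjoint_compl_right

theorem some_mem {F : Finset V} (hF : ∀ X ∈ F, ∀ Y ∈ F, X ≠ Y → ¬ Disjoint X Y)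
    (hc : F.card = 64) (X : V) (h : Xᶜ ∉ F) : X ∈ F := by
  have hd : Disjoint F (F.image compl) := by
    rw [disjoint_left]
    intro Y hY hY'
    obtain ⟨Z, hZ, rfl⟩ := mem_image.1 hY'
    exact both hF Z hZ hY
  have h1 : (F ∪ F.image compl).card = 128 := by
    rw [card_union_of_disjoint hd, card_image_of_injective _ compl_injective, hc]
  have h2 : F ∪ F.image compl = univ := by
    refine eq_univ_of_card _ ?_
    rw [h1, Fintype.card_finset, Fintype.card_fin]
    norm_num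
  have h3 : X ∈ F ∪ F.image compl := by rw [h2]; exact mem_univ _
  rcases mem_union.1 h3 with h4 | h4
  · exact h4
  · obtain ⟨Z, hZ, rfl⟩ := mem_image.1 h4
    rw [compl_compl] at h
    exact absurd hZ h

theorem t_I : S_I := by
  intro A hA _
  unfold ind cnt
  refine card_le_card_of_injOn (fun F => F.filter (fun X => X.card = 3)) ?_ ?_
  · intro F hF
    rw [mem_coe, mem_filter, mem_powersetCard] at hF
    rw [mem_coe, mem_filter, mem_powerset]
    refine ⟨filter_subset_filter _ hF.1.1, ?_⟩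
    intro X hX Y hY
    exact hF.2 X (mem_filter.1 hX).1 Y (mem_filter.1 hY).1
  · intro F hF F' hF' heq
    rw [mem_coe, mem_filter, mem_powersetCard] at hF hF'
    have key : ∀ F₁ F₂ : Finset V, F₁ ⊆ A → F₂ ⊆ A → F₁.card = 64 → F₂.card = 64 →
        (∀ X ∈ F₁, ∀ Y ∈ F₁, X ≠ Y → ¬ Disjoint X Y) →
        (∀ X ∈ F₂, ∀ Y ∈ F₂, X ≠ Y → ¬ Disjoint X Y) →
        F₁.filter (fun X => X.card = 3) = F₂.filter (fun X => X.card = 3) → F₁ ⊆ F₂ := by
      intro F₁ F₂ h1 h2 c1 c2 i1 i2 h X hX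
      by_cases h3 : X.card = 3
      · have h4 : X ∈ F₂.filter (fun X => X.card = 3) := h ▸ mem_filter.2 ⟨hX, h3⟩
        exact (mem_filter.1 h4).1
      · refine some_mem i2 c2 X fun h4 => ?_
        have h5 := hA X (h1 hX)
        have h6 := hA _ (h2 h4)
        have h7 : Xᶜ.card = 3 := by
          rw [compl_card] at h6 ⊢
          omega
        have h8 : Xᶜ ∈ F₁.filter (fun X => X.card = 3) := h.symm ▸ mem_filter.2 ⟨h4, h7⟩
        exact both i1 X hX (mem_filter.1 h8).1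
    exact Subset.antisymm
      (key F F' hF.1.1 hF'.1.1 hF.1.2 hF'.1.2 hF.2 hF'.2 heq)
      (key F' F hF'.1.1 hF.1.1 hF'.1.2 hF.1.2 hF'.2 hF.2 heq.symm)

end Pool.Agent.J4H64.IF
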