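import Pool.Agent.J4H60.IF.Stm

set_option autoImplicit false

namespace Pool.Agent.J4H64.IF

open Finset Pool.Agent.J4H60.IF

theorem card_U : U.card = 64 := by decide +kernel

theorem mem_U {X : V} : X ∈ U ↔ 4 ≤ X.card := by
  unfold U
  rw [mem_filter]
  exact ⟨fun h => h.2, fun h => ⟨mem_univ _, h⟩⟩

theorem compl_card (X : V) : Xᶜ.card = 7 - X.card := by
  rw [card_compl, Fintype.card_fin]

theorem card_le7 (X : V) : X.card ≤ 7 := (card_le_univ X).trans (by rw [Fintype.card_fin])

/-- disjoint sets whose sizes add up to at least 7 are complements -/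
theorem eq_compl {X Y : V} (h : Disjoint X Y) (hc : 7 ≤ X.card + Y.card) : X = Yᶜ := by
  refine eq_of_subset_of_card_le ?_ ?_
  · exact subset_compl_iff_disjoint_right.2 h
  · rw [compl_card]
    have := card_le7 Y
    omega

theorem not_disj {X Y : V} (hc : 8 ≤ X.card + Y.card) : ¬ Disjoint X Y := by
  intro h
  have h1 := card_union_of_disjoint h
  have h2 := card_le7 (X ∪ Y)
  omega

theorem t_J : S_J := by
  intro G hG
  unfold ind cnt
  refine card_le_card_of_injOn (fun H => H ∪ U.filter (fun X => Xᶜ ∉ H)) ?_ ?_
  · intro H hH
    rw [mem_coe, mem_filter, mem_powerset] at hH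
    obtain ⟨hHG, hHi⟩ := hH
    have h3 : ∀ X ∈ H, X.card = 3 := fun X hX => hG X (hHG hX)
    rw [mem_coe, mem_filter, mem_powersetCard]
    refine ⟨⟨?_, ?_⟩, ?_⟩
    · refine union_subset ?_ ?_
      · exact hHG.trans subset_union_right
      · exact (filter_subset _ _).trans subset_union_left
    · have hd : Disjoint H (U.filter (fun X => Xᶜ ∉ H)) := by
        rw [disjoint_left]
        intro X hX hX'
        have h4 := mem_U.1 (mem_filter.1 hX').1
        have h5 := h3 X hX
        omega
      rw [card_union_of_disjoint hd]
      have h4 : (U.filter (fun X => Xᶜ ∈ H)).card = H.card := by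
        refine card_bij (fun X _ => Xᶜ) ?_ ?_ ?_
        · intro X hX
          exact (mem_filter.1 hX).2
        · intro X _ Y _ h
          exact compl_injective h
        · intro X hX
          refine ⟨Xᶜ, ?_, compl_compl X⟩
          rw [mem_filter, mem_U, compl_card, h3 X hX, compl_compl]
          exact ⟨by norm_num, hX⟩
      have h5 := card_filter_add_card_filter_not (s := U) (fun X => Xᶜ ∈ H)
      rw [card_U] at h5
      omega
    · intro X hX Y hY hXY
      rw [mem_union, mem_filter, mem_U] at hX hY
      rcases hX with hX | hX <;> rcases hY with hY | hY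
      · exact hHi X hX Y hY hXY
      · intro h
        have h4 := h3 X hX
        have h5 := eq_compl h (by omega)
        exact hY.2 (h5 ▸ hX)
      · intro h
        have h4 := h3 Y hY
        have h5 := eq_compl h.symm (by omega)
        exact hX.2 (h5 ▸ hY)
      · exact not_disj (by omega)
  · intro H hH H' hH' heq
    rw [mem_coe, mem_filter, mem_powerset] at hH hH'
    have key : ∀ K : Finset V, K ⊆ G → (K ∪ U.filter (fun X => Xᶜ ∉ K)).filter
        (fun X => X.card = 3) = K := by
      intro K hK
      ext X
      rw [mem_filter, mem_union, mem_filter, mem_U]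
      constructor
      · rintro ⟨h | h, h'⟩
        · exact h
        · omega
      · intro h
        exact ⟨Or.inl h, hG X (hK h)⟩
    rw [← key H hH.1, ← key H' hH'.1]
    exact congrArg _ heq

end Pool.Agent.J4H64.IF
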